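import Pool.Agent.H9.SQ5

open Filter Topology Matrix
open scoped ComplexOrder

namespace Pool.Agent.Results.MP_18219f_mp.Add

/-- The symplectic form: index `(i, 0)` is `Q_i` and `(i, 1)` is `P_i`. -/
def sigma (n : ℕ) : Matrix (Fin n × Fin 2) (Fin n × Fin 2) ℝ :=
  Matrix.of fun p q => if p.1 = q.1 then !![(0 : ℝ), 1; -1, 0] p.2 q.2 else 0

/-- Covariance matrices: real symmetric `g` with `g - i σ` positive semidefinite. -/
def IsCov (n : ℕ) (g : Matrix (Fin n × Fin 2) (Fin n × Fin 2) ℝ) : Prop :=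
  g.IsSymm ∧ (g.map Complex.ofReal - Complex.I • (sigma n).map Complex.ofReal).PosSemidef

/-- Singular values in decreasing order (index from `0`): square roots of the decreasingly
ordered eigenvalues of `Aᵀ A`. -/
noncomputable def singVal {m : Type} [Fintype m] [DecidableEq m] (A : Matrix m m ℝ)
    (i : Fin (Fintype.card m)) : ℝ :=
  √((isHermitian_conjTranspose_mul_self A).eigenvalues₀ i)

/-- Sum of the logarithms of the `n` largest singular values. -/
noncomputable def logTop {m : Type} [Fintype m] [DecidableEq m] (n : ℕ) (A : Matrix m m ℝ) : ℝ :=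
  ∑ i : Fin (Fintype.card m) with i.val < n, Real.log (singVal A i)

/-- The operational squeezing measure `G`. -/
noncomputable def G (n : ℕ) (g : Matrix (Fin n × Fin 2) (Fin n × Fin 2) ℝ) : ℝ :=
  sInf {r | ∃ S : Matrix (Fin n × Fin 2) (Fin n × Fin 2) ℝ,
    Sᵀ * sigma n * S = sigma n ∧ (g - Sᵀ * S).PosSemidef ∧ r = logTop n S}

/-- Mode `i` of the first system keeps number `i`; mode `j` of the second becomes `n₁ + j`. -/
def modeEquiv (n₁ n₂ : ℕ) : (Fin n₁ × Fin 2) ⊕ (Fin n₂ × Fin 2) ≃ Fin (n₁ + n₂) × Fin 2 :=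
  (Equiv.sumProdDistrib (Fin n₁) (Fin n₂) (Fin 2)).symm.trans
    (finSumFinEquiv.prodCongr (Equiv.refl (Fin 2)))

/-- The block-diagonal direct sum, as a matrix on `n₁ + n₂` modes. -/
def dsum {n₁ n₂ : ℕ} (a : Matrix (Fin n₁ × Fin 2) (Fin n₁ × Fin 2) ℝ)
    (b : Matrix (Fin n₂ × Fin 2) (Fin n₂ × Fin 2) ℝ) :
    Matrix (Fin (n₁ + n₂) × Fin 2) (Fin (n₁ + n₂) × Fin 2) ℝ :=
  Matrix.reindex (modeEquiv n₁ n₂) (modeEquiv n₁ n₂) (Matrix.fromBlocks a 0 0 b)

open Pool.Agent.H9.SQ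

lemma sigma_t (n : ℕ) : (sigma n)ᵀ = -sigma n := by
  ext ⟨i, a⟩ ⟨j, b⟩
  by_cases h : i = j
  · subst h
    fin_cases a <;> fin_cases b <;> simp [sigma]
  · simp [sigma, h, Ne.symm h]

lemma sigma_sq (n : ℕ) : sigma n * sigma n = -1 := by
  ext ⟨i, a⟩ ⟨j, b⟩
  by_cases h : i = j
  · subst h
    fin_cases a <;> fin_cases b <;>
      simp [sigma, Matrix.mul_apply, Fintype.sum_prod_type]
  · fin_cases a <;> fin_cases b <;>
      simp [sigma, Matrix.mul_apply, Fintype.sum_prod_type, h]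

section
variable {m : Type} [Fintype m] [DecidableEq m]

omit [DecidableEq m] in
lemma unc_of {J g : Matrix m m ℝ} (hJt : Jᵀ = -J) (hs : g.IsSymm)
    (h : (g.map Complex.ofReal - Complex.I • J.map Complex.ofReal).PosSemidef) : Unc J g := by
  refine ⟨hs, fun x y => ?_⟩
  have h1 := (Complex.le_def.1 (h.dotProduct_mulVec_nonneg fun i => (x i : ℂ) + Complex.I * y i)).1
  have h2 : y ⬝ᵥ (J *ᵥ x) = -(x ⬝ᵥ (J *ᵥ y)) := by
    rw [dotProduct_mulVec, ← mulVec_transpose, hJt, neg_mulVec, neg_dotProduct, dotProduct_comm]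
  have h3 : (star (fun i => (x i : ℂ) + Complex.I * y i) ⬝ᵥ
      ((g.map Complex.ofReal - Complex.I • J.map Complex.ofReal) *ᵥ
        fun i => (x i : ℂ) + Complex.I * y i)).re =
      x ⬝ᵥ (g *ᵥ x) + y ⬝ᵥ (g *ᵥ y) + x ⬝ᵥ (J *ᵥ y) - y ⬝ᵥ (J *ᵥ x) := by
    simp only [dotProduct, mulVec, Finset.mul_sum, Complex.re_sum, ← Finset.sum_add_distrib,
      ← Finset.sum_sub_distrib]
    refine Finset.sum_congr rfl fun i _ => Finset.sum_congr rfl fun j _ => ?_
    simp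
    ring
  rw [h3, h2, Complex.zero_re] at h1
  linarith

end

lemma G_eq (n : ℕ) (g : Matrix (Fin n × Fin 2) (Fin n × Fin 2) ℝ) :
    G n g = sInf (PS (sigma n) g) := by
  rw [← PS_eq (n := n) (sigma_t n) (sigma_sq n) (by simp)]
  rfl

lemma sigma_add (n₁ n₂ : ℕ) : sigma (n₁ + n₂) = dsum (sigma n₁) (sigma n₂) := by
  ext p q
  obtain ⟨p, rfl⟩ := (modeEquiv n₁ n₂).surjective p
  obtain ⟨q, rfl⟩ := (modeEquiv n₁ n₂).surjective q
  simp only [dsum, reindex_apply, submatrix_apply, Equiv.symm_apply_apply]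
  rcases p with ⟨i, a⟩ | ⟨i, a⟩ <;> rcases q with ⟨j, b⟩ | ⟨j, b⟩
  · simp [sigma, modeEquiv]
  · have : Fin.castAdd n₂ i ≠ Fin.natAdd n₁ j := by
      intro h
      have := congrArg Fin.val h
      simp at this
      omega
    simp [sigma, modeEquiv, this]
  · have : Fin.natAdd n₁ i ≠ Fin.castAdd n₂ j := by
      intro h
      have := congrArg Fin.val h
      simp at this
      omega
    simp [sigma, modeEquiv, this]
  · simp [sigma, modeEquiv]

theorem result (n₁ n₂ : ℕ) (a : Matrix (Fin n₁ × Fin 2) (Fin n₁ × Fin 2) ℝ)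
    (b : Matrix (Fin n₂ × Fin 2) (Fin n₂ × Fin 2) ℝ) (ha : IsCov n₁ a) (hb : IsCov n₂ b) :
    G (n₁ + n₂) (dsum a b) = G n₁ a + G n₂ b := by
  rw [G_eq, G_eq, G_eq, sigma_add, ← inf_add (sigma_t n₁) (sigma_sq n₁) (sigma_t n₂) (sigma_sq n₂)
    (unc_of (sigma_t n₁) ha.1 ha.2) (unc_of (sigma_t n₂) hb.1 hb.2)]
  congr 1
  refine Set.Subset.antisymm ?_ (PS_reindex _ _ _)
  simpa [dsum] using PS_reindex (modeEquiv n₁ n₂).symm (dsum (sigma n₁) (sigma n₂)) (dsum a b)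

end Pool.Agent.Results.MP_18219f_mp.Add
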